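import Mathlib
import Pool.Agent.TH484.GC.Code

set_option autoImplicit false

namespace Pool.Agent.Results.MP_0ba87f_co.OneFifth

/-- `G` is a clique on `[n]`: its edges are all pairs inside a set `U` of at least two vertices. -/
def IsCliqueGraph {n : ℕ} (G : SimpleGraph (Fin n)) : Prop :=
  ∃ U : Finset (Fin n), 2 ≤ U.card ∧ ∀ u v : Fin n, G.Adj u v ↔ (u ≠ v ∧ u ∈ U ∧ v ∈ U)

/-- A family of graphs on `[n]` is a clique code if no two distinct members have a clique as their
symmetric difference. -/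
def IsCliqueCode {n : ℕ} (F : Finset (SimpleGraph (Fin n))) : Prop :=
  ∀ G ∈ F, ∀ H ∈ F, G ≠ H → ¬ IsCliqueGraph (symmDiff G H)

/-- A clique code on `[n]` contains at most the proportion `1/5 + (4/5) (n + 1)/2^n` of all graphs on
`[n]`. So the limit superior of the densities `d_K(n)` is at most `1/5`. -/
theorem result : ∀ (n : ℕ) (F : Finset (SimpleGraph (Fin n))), IsCliqueCode F →
    (F.card : ℝ) ≤ (1 / 5 + 4 / 5 * ((n + 1) / 2 ^ n)) * (2 : ℝ) ^ (n.choose 2) := by
  intro n F hF
  refine Pool.Agent.TH484.GC.code n F fun G hG H hH hGH hex => ?_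
  obtain ⟨U, hU⟩ := hex
  by_cases h2 : 2 ≤ U.card
  · exact hF G hG H hH hGH ⟨U, h2, hU⟩
  · apply hGH
    rw [← symmDiff_eq_bot]
    ext u v
    rw [hU, SimpleGraph.bot_adj, iff_false]
    rintro ⟨h3, h4, h5⟩
    exact h3 (Finset.card_le_one.1 (by omega) u h4 v h5)

end Pool.Agent.Results.MP_0ba87f_co.OneFifth
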